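import Pool.Agent.CCP68.Matching
import Mathlib

/-!
# The matching theorem in terms of the cuts of single vertices
-/

set_option autoImplicit false

namespace Pool.Agent.CCP68

open Finset Pool.Agent.CCO

theorem cut_single (G : FinGraph) (hl : ∀ e, G.fst e ≠ G.snd e) (v : G.V) :
    cut G {v} = inc G v := by
  ext e
  rw [mem_cut, mem_inc, mem_singleton, mem_singleton]
  by_cases h1 : G.fst e = v
  · have h2 : ¬ G.snd e = v := fun h => hl e (h1.trans h.symm)
    simp [h1, h2]
  · simp [h1]

/-- **Petersen's theorem**, in terms of `cut G {v}` -/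
theorem exists_matching_cut (G : FinGraph) (hb : Bridgeless G) (hl : ∀ e, G.fst e ≠ G.snd e)
    (hd : ∀ v, (cut G {v}).card = 0 ∨ (cut G {v}).card = 3) :
    ∃ M : Finset G.E, ∀ v, cut G {v} = ∅ ∨ (M ∩ cut G {v}).card = 1 := by
  obtain ⟨M, hM⟩ := exists_matching G hb hl (by
    intro v hv
    rw [← cut_single G hl v] at hv ⊢
    rcases hd v with h | h
    · rw [card_eq_zero] at h
      rw [h] at hv
      exact absurd hv (by simp)
    · exact h)
  refine ⟨M, fun v => ?_⟩
  rcases (cut G {v}).eq_empty_or_nonempty with h | h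
  · exact Or.inl h
  · right
    rw [cut_single G hl v] at h ⊢
    obtain ⟨e, he, hev, hu⟩ := hM v h
    rw [card_eq_one]
    refine ⟨e, ?_⟩
    ext e'
    rw [mem_inter, mem_singleton]
    constructor
    · rintro ⟨h1, h2⟩
      exact hu e' h1 h2
    · rintro rfl
      exact ⟨he, hev⟩

end Pool.Agent.CCP68
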