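import Pool.Agent.CCO.Defs
import Mathlib

/-!
# Petersen's theorem on perfect matchings, for multigraphs with degrees 0 and 3
-/

set_option autoImplicit false

namespace Pool.Agent.CCP68

open Finset Pool.Agent.CCO

/-- the edges at a vertex -/
def inc (G : FinGraph) (v : G.V) : Finset G.E :=
  univ.filter (fun e => G.fst e = v ∨ G.snd e = v)

theorem mem_inc {G : FinGraph} {v : G.V} {e : G.E} :
    e ∈ inc G v ↔ G.fst e = v ∨ G.snd e = v := by
  simp [inc]

theorem mem_cut {G : FinGraph} {W : Finset G.V} {e : G.E} :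
    e ∈ cut G W ↔ ¬ (G.fst e ∈ W ↔ G.snd e ∈ W) := by
  simp [cut]

/-- handshake -/
theorem sum_inc (G : FinGraph) (hl : ∀ e, G.fst e ≠ G.snd e) (W : Finset G.V) :
    ∑ v ∈ W, (inc G v).card = ∑ e, ((if G.fst e ∈ W then 1 else 0) +
      (if G.snd e ∈ W then 1 else 0)) := by
  have h1 : ∀ v, (inc G v).card = ∑ e, ((if G.fst e = v then 1 else 0) +
      (if G.snd e = v then 1 else 0)) := by
    intro v
    rw [inc, card_filter]
    apply sum_congr rfl
    intro e _
    by_cases h1 : G.fst e = v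
    · have h2 : ¬ G.snd e = v := fun h => hl e (h1.trans h.symm)
      simp [h1, h2]
    · simp [h1]
  simp only [h1]
  rw [sum_comm]
  apply sum_congr rfl
  intro e _
  rw [sum_add_distrib, sum_ite_eq, sum_ite_eq]

theorem odd_cut (G : FinGraph) (hl : ∀ e, G.fst e ≠ G.snd e) (W : Finset G.V)
    (hd : ∀ v ∈ W, (inc G v).card = 3) (hW : Odd W.card) : Odd (cut G W).card := by
  have h1 := sum_inc G hl W
  have h2 : ∑ v ∈ W, (inc G v).card = 3 * W.card := by
    rw [sum_congr rfl hd, sum_const, smul_eq_mul, mul_comm]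
  have h3 : ∀ e, ((if G.fst e ∈ W then 1 else 0) + (if G.snd e ∈ W then 1 else 0)) =
      (if e ∈ cut G W then 1 else 0) + 2 * (if G.fst e ∈ W ∧ G.snd e ∈ W then 1 else 0) := by
    intro e
    simp only [mem_cut]
    by_cases h4 : G.fst e ∈ W <;> by_cases h5 : G.snd e ∈ W <;> simp [h4, h5]
  simp only [h3] at h1
  rw [sum_add_distrib, ← mul_sum, h2] at h1
  have h4 : ∑ e, (if e ∈ cut G W then 1 else 0) = (cut G W).card := by
    rw [sum_ite_mem, univ_inter, sum_const, smul_eq_mul, mul_one]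
  rw [h4] at h1
  have h5 : Odd (3 * W.card) := Odd.mul (by decide) hW
  rw [h1] at h5
  rcases Nat.even_or_odd (cut G W).card with h6 | h6
  · exfalso
    have h7 : Even ((cut G W).card +
        2 * ∑ e, (if G.fst e ∈ W ∧ G.snd e ∈ W then 1 else 0)) := h6.add (even_two_mul _)
    exact (Nat.not_even_iff_odd.2 h5) h7
  · exact h6

section tutte

variable (G : FinGraph)

/-- the vertices of positive degree -/
abbrev VP : Type := {v : G.V // (inc G v).Nonempty}

/-- the underlying simple graph -/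
def sg : SimpleGraph (VP G) where
  Adj u v := u ≠ v ∧ ∃ e, (G.fst e = u.1 ∧ G.snd e = v.1) ∨ (G.fst e = v.1 ∧ G.snd e = u.1)
  symm := ⟨by
    rintro u v ⟨h1, e, h2⟩
    exact ⟨h1.symm, e, h2.symm⟩⟩
  loopless := ⟨fun u h => h.1 rfl⟩

theorem no_violator (hb : Bridgeless G) (hl : ∀ e, G.fst e ≠ G.snd e)
    (hd : ∀ v, (inc G v).Nonempty → (inc G v).card = 3) (u : Set (VP G)) :
    ¬ (sg G).IsTutteViolator u := by
  classical
  unfold SimpleGraph.IsTutteViolator
  push Not
  set H := ((⊤ : (sg G).Subgraph).deleteVerts u).coe with hH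
  set W : H.ConnectedComponent → Finset G.V :=
    fun K => univ.filter (fun v => ∃ x, x ∈ K.supp ∧ x.1.1 = v) with hW
  have memW : ∀ K v, v ∈ W K ↔ ∃ x, x ∈ K.supp ∧ x.1.1 = v := by
    intro K v
    simp [hW]
  set U : Finset G.V := univ.filter (fun v => ∃ x ∈ u, x.1 = v) with hU
  have memU : ∀ v, v ∈ U ↔ ∃ x ∈ u, x.1 = v := by
    intro v
    simp [hU]
  have outU : ∀ x : ((⊤ : (sg G).Subgraph).deleteVerts u).verts, x.1 ∉ u := by
    rintro ⟨x, hx⟩
    rw [SimpleGraph.Subgraph.deleteVerts_verts] at hx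
    exact hx.2
  have notU : ∀ K v, v ∈ W K → v ∉ U := by
    intro K v hv hv'
    obtain ⟨x, hx, rfl⟩ := (memW K v).1 hv
    obtain ⟨y, hy, hxy⟩ := (memU _).1 hv'
    have h1 : y = x.1 := Subtype.ext hxy
    exact outU x (h1 ▸ hy)
  -- an edge from a component leads to `u`
  have key : ∀ K v w e, v ∈ W K → w ∉ W K →
      ((G.fst e = v ∧ G.snd e = w) ∨ (G.fst e = w ∧ G.snd e = v)) → w ∈ U := by
    intro K v w e hv hw he
    by_contra hwU
    obtain ⟨x, hx, rfl⟩ := (memW K v).1 hv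
    have hwp : (inc G w).Nonempty := by
      refine ⟨e, mem_inc.2 ?_⟩
      rcases he with ⟨-, h⟩ | ⟨h, -⟩
      · exact Or.inr h
      · exact Or.inl h
    have h1 : (⟨w, hwp⟩ : VP G) ∈ ((⊤ : (sg G).Subgraph).deleteVerts u).verts := by
      rw [SimpleGraph.Subgraph.deleteVerts_verts]
      refine ⟨trivial, fun h => hwU ((memU w).2 ⟨_, h, rfl⟩)⟩
    have hne : x.1 ≠ (⟨w, hwp⟩ : VP G) := by
      intro h
      apply hw
      rw [memW]
      exact ⟨x, hx, by rw [h]⟩
    have h2 : H.Adj x ⟨⟨w, hwp⟩, h1⟩ := by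
      rw [hH, SimpleGraph.Subgraph.coe_adj, SimpleGraph.Subgraph.deleteVerts_adj]
      refine ⟨trivial, outU x, trivial, ?_, hne, e, he⟩
      exact fun h => hwU ((memU w).2 ⟨_, h, rfl⟩)
    apply hw
    rw [memW]
    refine ⟨⟨⟨w, hwp⟩, h1⟩, ?_, rfl⟩
    rw [SimpleGraph.ConnectedComponent.mem_supp_iff] at hx ⊢
    rw [← hx, SimpleGraph.ConnectedComponent.eq]
    exact h2.symm.reachable
  have key2 : ∀ K e, e ∈ cut G (W K) → ∃ v w, v ∈ W K ∧ w ∈ U ∧
      ((G.fst e = v ∧ G.snd e = w) ∨ (G.fst e = w ∧ G.snd e = v)) := by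
    intro K e he
    rw [mem_cut] at he
    by_cases h1 : G.fst e ∈ W K
    · have h2 : G.snd e ∉ W K := fun h => he ⟨fun _ => h, fun _ => h1⟩
      exact ⟨_, _, h1, key K _ _ e h1 h2 (Or.inl ⟨rfl, rfl⟩), Or.inl ⟨rfl, rfl⟩⟩
    · have h2 : G.snd e ∈ W K := by
        by_contra h
        exact he ⟨fun h' => absurd h' h1, fun h' => absurd h' h⟩
      exact ⟨_, _, h2, key K _ _ e h2 h1 (Or.inr ⟨rfl, rfl⟩), Or.inr ⟨rfl, rfl⟩⟩
  have cardW : ∀ K, (W K).card = K.supp.ncard := by
    intro K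
    have h1 : (W K : Set G.V) = (fun x : ((⊤ : (sg G).Subgraph).deleteVerts u).verts => x.1.1) ''
        K.supp := by
      ext v
      rw [mem_coe, memW]
      rfl
    rw [← Set.ncard_coe_finset, h1, Set.ncard_image_of_injective]
    intro x y hxy
    exact Subtype.ext (Subtype.ext hxy)
  have cardU : U.card = u.ncard := by
    have h1 : (U : Set G.V) = Subtype.val '' u := by
      ext v
      rw [mem_coe, memU]
      rfl
    rw [← Set.ncard_coe_finset, h1, Set.ncard_image_of_injective _ Subtype.val_injective]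
  have hfin : Fintype H.ConnectedComponent := Fintype.ofFinite _
  set O : Finset H.ConnectedComponent := univ.filter (fun K => Odd K.supp.ncard) with hO
  have cardO : H.oddComponents.ncard = O.card := by
    rw [← Set.ncard_coe_finset]
    congr 1
    ext K
    simp [hO, SimpleGraph.oddComponents]
  have h3 : ∀ K ∈ O, 3 ≤ (cut G (W K)).card := by
    intro K hK
    have h4 : Odd K.supp.ncard := by simpa [hO] using hK
    have h5 : Odd (cut G (W K)).card := by
      apply odd_cut G hl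
      · intro v hv
        obtain ⟨x, -, rfl⟩ := (memW K v).1 hv
        exact hd _ x.1.2
      · rw [cardW]
        exact h4
    have h6 := hb (W K)
    obtain ⟨m, hm⟩ := h5
    omega
  have hdis : ∀ K ∈ O, ∀ K' ∈ O, K ≠ K' → Disjoint (cut G (W K)) (cut G (W K')) := by
    intro K _ K' _ hne
    rw [Finset.disjoint_left]
    intro e he he'
    obtain ⟨v, w, hv, hw, h4⟩ := key2 K e he
    obtain ⟨v', w', hv', hw', h5⟩ := key2 K' e he'
    have hvv : v = v' := by
      have h6 := notU K v hv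
      have h7 := notU K' v' hv'
      rcases h4 with ⟨h8, h9⟩ | ⟨h8, h9⟩ <;> rcases h5 with ⟨h10, h11⟩ | ⟨h10, h11⟩
      · rw [← h8, ← h10]
      · exact absurd (by rw [← h9, h11] at hw; exact hw) h7
      · exact absurd (by rw [← h8, h10] at hw; exact hw) h7
      · rw [← h9, ← h11]
    obtain ⟨x, hx, hxv⟩ := (memW K v).1 hv
    obtain ⟨x', hx', hxv'⟩ := (memW K' v').1 hv'
    have h6 : x = x' := Subtype.ext (Subtype.ext (by rw [hxv, hxv', hvv]))
    apply hne
    rw [SimpleGraph.ConnectedComponent.mem_supp_iff] at hx hx'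
    rw [← hx, ← hx', h6]
  have h4 : O.card * 3 ≤ (O.biUnion (fun K => cut G (W K))).card := by
    rw [card_biUnion hdis]
    exact card_nsmul_le_sum O (fun K => (cut G (W K)).card) 3 h3
  have h5 : O.biUnion (fun K => cut G (W K)) ⊆ U.biUnion (fun v => inc G v) := by
    intro e he
    obtain ⟨K, hK, he⟩ := mem_biUnion.1 he
    obtain ⟨v, w, hv, hw, h4⟩ := key2 K e he
    refine mem_biUnion.2 ⟨w, hw, mem_inc.2 ?_⟩
    rcases h4 with ⟨-, h⟩ | ⟨h, -⟩
    · exact Or.inr h
    · exact Or.inl h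
  have h6 : (U.biUnion (fun v => inc G v)).card ≤ U.card * 3 := by
    apply card_biUnion_le_card_mul
    intro v hv
    obtain ⟨x, -, rfl⟩ := (memU v).1 hv
    exact (hd _ x.2).le
  have h7 := card_le_card h5
  rw [cardO, ← cardU]
  omega

/-- **Petersen's theorem**: a bridgeless loopless multigraph with all degrees 0 or 3 has a set of
edges which contains exactly one edge at every vertex of degree 3. -/
theorem exists_matching (hb : Bridgeless G) (hl : ∀ e, G.fst e ≠ G.snd e)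
    (hd : ∀ v, (inc G v).Nonempty → (inc G v).card = 3) :
    ∃ M : Finset G.E, ∀ v, (inc G v).Nonempty → ∃ e ∈ M, e ∈ inc G v ∧
      ∀ e' ∈ M, e' ∈ inc G v → e' = e := by
  classical
  obtain ⟨M, hM1, hM2⟩ := SimpleGraph.tutte.2 (no_violator G hb hl hd)
  -- a choice of one edge for every pair
  have hc : ∀ s : Sym2 G.V, ∃ e : G.E, (∃ e', s(G.fst e', G.snd e') = s) →
      s(G.fst e, G.snd e) = s := by
    intro s
    by_cases h : ∃ e', s(G.fst e', G.snd e') = s
    · obtain ⟨e', he'⟩ := h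
      exact ⟨e', fun _ => he'⟩
    · exact ⟨Classical.choice G.nonempty, fun h' => absurd h' h⟩
  choose c hc using hc
  have hne1 : ∀ e, (inc G (G.fst e)).Nonempty := fun e => ⟨e, mem_inc.2 (Or.inl rfl)⟩
  have hne2 : ∀ e, (inc G (G.snd e)).Nonempty := fun e => ⟨e, mem_inc.2 (Or.inr rfl)⟩
  refine ⟨univ.filter (fun e => M.Adj ⟨G.fst e, hne1 e⟩ ⟨G.snd e, hne2 e⟩ ∧
    c s(G.fst e, G.snd e) = e), ?_⟩
  intro v hv
  obtain ⟨w, hw, hw'⟩ := hM1 (hM2 ⟨v, hv⟩)
  simp only at hw'
  have hadj := M.adj_sub hw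
  obtain ⟨hvw, e1, he1⟩ := hadj
  have hs : s(G.fst (c s(v, w.1)), G.snd (c s(v, w.1))) = s(v, w.1) := by
    apply hc
    refine ⟨e1, ?_⟩
    rcases he1 with ⟨h1, h2⟩ | ⟨h1, h2⟩
    · rw [h1, h2]
    · rw [h1, h2, Sym2.eq_swap]
  refine ⟨c s(v, w.1), ?_, ?_, ?_⟩
  · simp only [mem_filter, mem_univ, true_and]
    refine ⟨?_, by rw [hs]⟩
    rw [Sym2.eq_iff] at hs
    rcases hs with ⟨h1, h2⟩ | ⟨h1, h2⟩
    · have e3 : (⟨G.fst (c s(v, w.1)), hne1 _⟩ : VP G) = ⟨v, hv⟩ := Subtype.ext h1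
      have e4 : (⟨G.snd (c s(v, w.1)), hne2 _⟩ : VP G) = w := Subtype.ext h2
      rw [e3, e4]
      exact hw
    · have e3 : (⟨G.fst (c s(v, w.1)), hne1 _⟩ : VP G) = w := Subtype.ext h1
      have e4 : (⟨G.snd (c s(v, w.1)), hne2 _⟩ : VP G) = ⟨v, hv⟩ := Subtype.ext h2
      rw [e3, e4]
      exact hw.symm
  · rw [mem_inc]
    rw [Sym2.eq_iff] at hs
    rcases hs with ⟨h1, h2⟩ | ⟨h1, h2⟩
    · exact Or.inl h1
    · exact Or.inr h2
  · intro e' he' hinc
    simp only [mem_filter, mem_univ, true_and] at he'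
    obtain ⟨h1, h2⟩ := he'
    rw [← h2]
    congr 1
    rcases mem_inc.1 hinc with h3 | h3
    · have e3 : (⟨G.fst e', hne1 _⟩ : VP G) = ⟨v, hv⟩ := Subtype.ext h3
      rw [e3] at h1
      have h4 := hw' _ h1
      rw [h3, ← h4]
    · have e3 : (⟨G.snd e', hne2 _⟩ : VP G) = ⟨v, hv⟩ := Subtype.ext h3
      rw [e3] at h1
      have h4 := hw' _ h1.symm
      rw [h3, ← h4, Sym2.eq_swap]

end tutte

end Pool.Agent.CCP68
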